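import Pool.Agent.KS6_21.CT.Main

set_option autoImplicit false

namespace Pool.Agent.Results.MP_e7ed3f_nt.UniformGrowth

open Filter Topology

/-- The `3x+1` function on the integers (positive, negative or zero). -/
def T (n : ℤ) : ℤ := if n % 2 = 0 then n / 2 else (3 * n + 1) / 2

/-- `N_k(a)`: the number of the integers `n` with `T^(k)(n) = a`. For `a > 0` they are positive
(part (1)), for `a < 0` they are negative. -/
noncomputable def N (k : ℕ) (a : ℤ) : ℕ := {n : ℤ | T^[k] n = a}.ncard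

/-- `N*(k, a)`: the number of the integers `n` with `T^(k)(n) = a` and `3 ∤ n`. -/
noncomputable def Nstar (k : ℕ) (a : ℤ) : ℕ := {n : ℤ | T^[k] n = a ∧ ¬ (3 : ℤ) ∣ n}.ncard

/-- (1) The sets which are counted are finite, and `T` preserves the signs.
(2) Uniformity: for `ε > 0` there is a `K` such that for all `k ≥ K` and ALL integers `a` with
`3 ∤ a`, positive or negative,
`(4/3)^((1-ε)k) ≤ N*(k, a) ≤ N_k(a) ≤ (4/3)^((1+ε)k)`.
(3) For all integers `a` with `3 ∤ a` the limits of `(log N_k(a)) / k` and `(log N*(k, a)) / k`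
exist and are equal to `log (4/3)`.
(4) For all integers `a` with `3 ∣ a` one has `N_k(a) = 1` for all `k`.
(5) The statement of Q1: `δ_3(a) = log (4/3)` for all positive integers `a` with `3 ∤ a`. -/
theorem result :
    (∀ (k : ℕ) (a : ℤ), {n : ℤ | T^[k] n = a}.Finite ∧ ∀ n : ℤ, (0 < T^[k] n ↔ 0 < n)) ∧
    (∀ ε : ℝ, 0 < ε → ∃ K : ℕ, ∀ k : ℕ, K ≤ k → ∀ a : ℤ, ¬ (3 : ℤ) ∣ a →
      (4 / 3 : ℝ) ^ ((1 - ε) * (k : ℝ)) ≤ (Nstar k a : ℝ) ∧ (Nstar k a : ℝ) ≤ (N k a : ℝ) ∧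
      (N k a : ℝ) ≤ (4 / 3 : ℝ) ^ ((1 + ε) * (k : ℝ))) ∧
    (∀ a : ℤ, ¬ (3 : ℤ) ∣ a →
      Tendsto (fun k : ℕ => Real.log (N k a : ℝ) / (k : ℝ)) atTop (𝓝 (Real.log (4 / 3))) ∧
      Tendsto (fun k : ℕ => Real.log (Nstar k a : ℝ) / (k : ℝ)) atTop (𝓝 (Real.log (4 / 3)))) ∧
    (∀ (k : ℕ) (a : ℤ), (3 : ℤ) ∣ a → N k a = 1) ∧
    (∀ a : ℕ, 0 < a → ¬ (3 ∣ a) →
      Filter.limsup
        (fun k : ℕ =>
          Real.log ((Set.ncard {n : ℕ | 1 ≤ n ∧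
            (fun m : ℕ => if m % 2 = 0 then m / 2 else (3 * m + 1) / 2)^[k] n = a} : ℕ) : ℝ)
            / (k : ℝ))
        Filter.atTop = Real.log (4 / 3)) := by
  have h2 : ∀ ε : ℝ, 0 < ε → ∃ K : ℕ, ∀ k : ℕ, K ≤ k → ∀ a : ℤ, ¬ (3 : ℤ) ∣ a →
      (4 / 3 : ℝ) ^ ((1 - ε) * (k : ℝ)) ≤ (Nstar k a : ℝ) ∧ (Nstar k a : ℝ) ≤ (N k a : ℝ) ∧
      (N k a : ℝ) ≤ (4 / 3 : ℝ) ^ ((1 + ε) * (k : ℝ)) := by
    intro ε hε
    obtain ⟨K, hK⟩ := KS6_21.CT.uniform hε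
    refine ⟨K, fun k hk a ha => ⟨(hK k hk a ha).1, ?_, (hK k hk a ha).2⟩⟩
    exact_mod_cast KS6_21.CT.Nstar_le_N k a
  have h3 : ∀ a : ℤ, ¬ (3 : ℤ) ∣ a →
      Tendsto (fun k : ℕ => Real.log (N k a : ℝ) / (k : ℝ)) atTop (𝓝 (Real.log (4 / 3))) ∧
      Tendsto (fun k : ℕ => Real.log (Nstar k a : ℝ) / (k : ℝ)) atTop
        (𝓝 (Real.log (4 / 3))) := by
    intro a ha
    constructor
    · refine KS6_21.CT.lim_of fun ε hε => ?_
      obtain ⟨K, hK⟩ := h2 ε hε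
      exact ⟨K, fun k hk => ⟨(hK k hk a ha).1.trans (hK k hk a ha).2.1, (hK k hk a ha).2.2⟩⟩
    · refine KS6_21.CT.lim_of fun ε hε => ?_
      obtain ⟨K, hK⟩ := h2 ε hε
      exact ⟨K, fun k hk => ⟨(hK k hk a ha).1, (hK k hk a ha).2.1.trans (hK k hk a ha).2.2⟩⟩
  refine ⟨fun k a => ⟨KS6_21.CT.finite k a, KS6_21.CT.T_iter_pos k⟩, h2, h3, ?_, ?_⟩
  · intro k a ha
    have h := KS6_21.CT.N_of_dvd k ha
    change Set.ncard {n : ℤ | KS6_21.CT.T^[k] n = a} = 1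
    rw [h, Set.ncard_singleton]
  · intro a ha0 ha
    have h : (fun k : ℕ =>
          Real.log ((Set.ncard {n : ℕ | 1 ≤ n ∧
            (fun m : ℕ => if m % 2 = 0 then m / 2 else (3 * m + 1) / 2)^[k] n = a} : ℕ) : ℝ)
            / (k : ℝ)) = fun k : ℕ => Real.log (N k (a : ℤ) : ℝ) / (k : ℝ) := by
      funext k
      rw [KS6_21.CT.nat_count k a ha0]
      rfl
    rw [h]
    exact (h3 (a : ℤ) (by omega)).1.limsup_eq

end Pool.Agent.Results.MP_e7ed3f_nt.UniformGrowth
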